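import Pool.Agent.helper37.L5.SpecE

/-!
# MP_baa4d7_al, project L5, block E, row CTG5: the last sum of the toggle
-/

set_option autoImplicit false

namespace Pool.Agent.L5

open Pool.Agent.helper58.DC Pool.Agent.DI Pool.Agent.GR Pool.Agent.OB Pool.Agent.DR Pool.Agent.FI Pool.Agent.FI3 Pool.Agent.FI4 Pool.Agent.FI4I Pool.Agent.FI4E Pool.Agent.LE

open Classical in
theorem CTG5_fs {β : Type} [Fintype β] (P : β → Prop) (F : β → ℂ) :
    ∑ᶠ a ∈ {a : β | P a}, F a = ∑ a : β, if P a then F a else 0 := by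
  have hfin : ({a : β | P a}).Finite := Set.toFinite _
  rw [finsum_mem_eq_finite_toFinset_sum _ hfin, ← Finset.sum_filter]
  refine Finset.sum_congr ?_ fun _ _ => rfl
  ext g
  simp

theorem CTG5 (hFXA : FXA_stmt) (hTEI : TEI5_stmt) (hECN : ECN_stmt) (hFEQ : FEQ_stmt) : CTG5_stmt := by
  classical
  intro p M hS G _ _ D x θ χ hR e α hα
  have _inst : Fintype G := Fintype.ofFinite G
  obtain ⟨-, -, -, hX4, -, hX6, -⟩ := hFXA p M hS G D θ hR.th α hα
  obtain ⟨-, hE2, hE3, -, -, -, -⟩ := hECN p e hS.pr G D hR.dfa.pgrp hR.com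
  obtain ⟨hT1, hT2, -⟩ := hTEI p M hS G θ α
  have hTN : TT M D θ ≤ nz (Ec p e D) := fun t ht => hE3 ht.1
  have hK : ∀ h : G, nz (Ec p e (cjS h D)) = cjS h (nz (Ec p e D)) := fun h => by
    rw [hE2 h]
    exact (hFEQ G M h 1 (Ec p e D) D D θ θ χ).2.1.2.1
  have hterm : ∀ h : G, ∀ m ∈ TT M D θ,
      tE p M (nz (Ec p e (cjS h D))) (cjF h θ) (al α (h * m * (α h)⁻¹)) = tE p M (nz (Ec p e D)) θ α := by
    intro h m hm
    have e1 : h⁻¹ * (h * m * (α h)⁻¹) * α h = m := by group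
    rw [hK h, hT1, e1]
    exact hT2 _ (hX6 e).2 m (hTN hm)
  rw [finsum_eq_sum_of_fintype]
  have h1 : ∀ g : G, ∑ᶠ h ∈ {h : G | FxR M (cjS h D) (cjF h θ) (al α g)},
        tE p M (nz (Ec p e (cjS h D))) (cjF h θ) (al α g) =
      ∑ h : G, if h⁻¹ * g * α h ∈ TT M D θ then
        tE p M (nz (Ec p e (cjS h D))) (cjF h θ) (al α g) else 0 := by
    intro g
    rw [CTG5_fs]
    refine Finset.sum_congr rfl fun h _ => ?_
    by_cases hc : FxR M (cjS h D) (cjF h θ) (al α g)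
    · rw [if_pos hc, if_pos ((hX4 h g).1 hc)]
    · rw [if_neg hc, if_neg fun h2 => hc ((hX4 h g).2 h2)]
  rw [Finset.sum_congr rfl fun g _ => h1 g, Finset.sum_comm]
  have h2 : ∀ h : G, ∑ g : G, (if h⁻¹ * g * α h ∈ TT M D θ then
        tE p M (nz (Ec p e (cjS h D))) (cjF h θ) (al α g) else 0) =
      (Nat.card (TT M D θ) : ℂ) * tE p M (nz (Ec p e D)) θ α := by
    intro h
    have e0 := Equiv.sum_comp ((Equiv.mulLeft h).trans (Equiv.mulRight (α h)⁻¹))
      (fun g : G => if h⁻¹ * g * α h ∈ TT M D θ then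
        tE p M (nz (Ec p e (cjS h D))) (cjF h θ) (al α g) else 0)
    rw [← e0]
    have h3 : ∀ m : G, (if h⁻¹ * (((Equiv.mulLeft h).trans (Equiv.mulRight (α h)⁻¹)) m) * α h ∈ TT M D θ then
        tE p M (nz (Ec p e (cjS h D))) (cjF h θ)
          (al α (((Equiv.mulLeft h).trans (Equiv.mulRight (α h)⁻¹)) m)) else 0) =
        if m ∈ TT M D θ then tE p M (nz (Ec p e D)) θ α else 0 := by
      intro m
      have e1 : ((Equiv.mulLeft h).trans (Equiv.mulRight (α h)⁻¹)) m = h * m * (α h)⁻¹ := rfl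
      have e2 : h⁻¹ * (h * m * (α h)⁻¹) * α h = m := by group
      rw [e1, e2]
      by_cases hm : m ∈ TT M D θ
      · rw [if_pos hm, if_pos hm, hterm h m hm]
      · rw [if_neg hm, if_neg hm]
    rw [Finset.sum_congr rfl fun m _ => h3 m, ← Finset.sum_filter, Finset.sum_const, nsmul_eq_mul]
    have h4 : (Finset.univ.filter fun m : G => m ∈ TT M D θ).card = Nat.card (TT M D θ) := by
      rw [Nat.card_eq_fintype_card, Fintype.card_subtype]
    rw [h4]
  rw [Finset.sum_congr rfl fun h _ => h2 h, Finset.sum_const, Finset.card_univ, nsmul_eq_mul,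
    ← Nat.card_eq_fintype_card (α := G)]

end Pool.Agent.L5
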